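import Pool.Agent.N522.YK.Main

/-!
# The Yau–Tian–Donaldson conjecture for products
-/

open Pool.Agent.N522.YK

/-- (i) If `(M₁ × M₂, L₁ ⊠ L₂)` is K-stable, so are both factors. (ii) If Q1 holds for `(M₁, L₁)` and
`(M₂, L₂)`, it holds for `(M₁ × M₂, L₁ ⊠ L₂)`. (iii) Q1 holds for the smallest class closed under
products which contains a given class `S` for which it is known. -/
theorem Pool.Agent.Results.MP_9dce12_gt.Products.result (T : Theory) (hT : Facts T) :
    (∀ X Y : T.Pol, KStable T (T.prod X Y) → KStable T X ∧ KStable T Y) ∧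
    (∀ X Y : T.Pol, Q1 T X → Q1 T Y → Q1 T (T.prod X Y)) ∧
    (∀ S : T.Pol → Prop, (∀ X, S X → Q1 T X) → ∀ X, Gen T S X → Q1 T X) :=
  ⟨fun X Y h => ⟨stable_left hT X Y h, stable_left hT Y X (hT.swap X Y h)⟩,
    fun X Y hX hY => q1_prod hT X Y hX hY, fun S hS X h => q1_gen hT S hS X h⟩
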